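import Mathlib
import Pool.Agent.MP_609e33_gt.h62.Defs
import Pool.Agent.MP_609e33_gt.h62.EvenC
import Pool.Agent.MP_609e33_gt.h62.Univ

/-!
# MP_609e33_gt: for even `g ≥ 4` a connected manifold with a faithful action of the universal
cover of `Sp(2g, ℝ)` has dimension at least `g (g + 1) / 2 + 2`
-/

set_option autoImplicit false

open scoped Manifold ContDiff

namespace Pool.Agent.Results.MP_609e33_gt.ConnectedEven

universe u v

open Pool.Agent.MP_609e33_gt in
theorem result (g : ℕ) (hg : 4 ≤ g) (he : Even g) :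
    Nonempty (UnivCover.{0} g) ∧
      ∀ (U : UnivCover.{u} g) (d : ℕ) (A : FaithfulAction.{u, v} U 1 d), ConnectedSpace A.M →
        g * (g + 1) / 2 + 2 ≤ d := by
  constructor
  · obtain ⟨G, _, _, n, _, _, _, π, h1, h2, h3⟩ := Up.exists_cover g
    exact ⟨⟨G, n, π, h1, h2, h3⟩⟩
  intro U d A _
  have := topologicalGroup_of_lieGroup (𝓡 U.n) ∞ (G := U.G)
  by_contra hd
  obtain ⟨L⟩ := exists_expLift U.covering
  refine Up.not_faithful_even (act_of_contMDiff L
    (fun i j => (U.smooth i j).of_le (by exact_mod_cast le_top)) A.smooth) (by omega) he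
    U.surjective ?_ A.faithful
  rw [finrank_euclideanSpace_fin, Nat.choose_two_right, Nat.add_sub_cancel, mul_comm]
  omega

end Pool.Agent.Results.MP_609e33_gt.ConnectedEven
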