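import Mathlib
import Pool.Agent.MP_609e33_gt.h62.Defs
import Pool.Agent.MP_609e33_gt.h62.Upper
import Pool.Agent.MP_609e33_gt.h62.Univ

/-!
# MP_609e33_gt: the least dimension of a closed manifold with a faithful action of the universal
cover of `Sp(2g, ℝ)` is `g (g + 1) / 2 + 1`
-/

set_option autoImplicit false

open scoped Manifold ContDiff

namespace Pool.Agent.Results.MP_609e33_gt.ExactDimension

universe u v

open Pool.Agent.MP_609e33_gt in
theorem result (g : ℕ) (hg : 1 ≤ g) :
    Nonempty (UnivCover.{0} g) ∧ ∀ U : UnivCover.{u} g,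
      (∃ A : FaithfulAction.{u, 0} U ∞ (g * (g + 1) / 2 + 1),
        CompactSpace A.M ∧ (Odd g → ConnectedSpace A.M)) ∧
      ∀ (d : ℕ) (A : FaithfulAction.{u, v} U 1 d), CompactSpace A.M →
        g * (g + 1) / 2 + 1 ≤ d := by
  constructor
  · obtain ⟨G, _, _, n, _, _, _, π, h1, h2, h3⟩ := Up.exists_cover g
    exact ⟨⟨G, n, π, h1, h2, h3⟩⟩
  intro U
  have := topologicalGroup_of_lieGroup (𝓡 U.n) ∞ (G := U.G)
  constructor
  · obtain ⟨X, h1, h2⟩ := Up.exists_mfd hg U.covering U.smooth
    exact ⟨@FaithfulAction.mk g U _ _ X.M X.top X.t2 X.cs X.mf X.act X.sm h1, X.cpt, h2⟩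
  · intro d A _
    by_contra hd
    obtain ⟨L⟩ := exists_expLift U.covering
    refine (act_of_contMDiff L (fun i j => (U.smooth i j).of_le (by exact_mod_cast le_top))
      A.smooth).not_faithful hg U.surjective ?_ A.faithful
    rw [finrank_euclideanSpace_fin, Nat.choose_two_right, Nat.add_sub_cancel, mul_comm]
    omega

end Pool.Agent.Results.MP_609e33_gt.ExactDimension
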